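import Pool.Agent.Helper24K9.PT.Stm

/-!
# [NL]: for most `l` the number `nn g (h + l g')` has few large prime factors

As a polynomial in `l` it is `U l ^ 2 + V l + W`, `U = nn g g' = 16 (cB ^ 2 - cA cC)`. For `p > z >= |U|` at most
`2 ((2 H + 1) / p + 1)` of the `l` give a multiple of `p`; a number smaller than `H ^ 3` has at most two prime factors
larger than `H`. So the sum of `sg z |D l|` over the `l` with `D l` not zero is at most `8 H / z + 6`.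
-/

set_option autoImplicit false

namespace Pool.Agent.Helper83K9.PT

open Finset Filter Topology
open Pool.Agent.Helper24K9.PL (cA cB cC)
open Pool.Agent.Helper24K9.PT
open Pool.Agent.Helper82K9.PR (LP sg)

namespace NlL

/-- a residue class in an interval -/
lemma card_class (H p : ℕ) (hp : 0 < p) (r : ℤ) :
    (({l ∈ Icc (-(H : ℤ)) H | (p : ℤ) ∣ l - r} : Finset ℤ).card : ℝ) ≤ (2 * H + 1) / p + 1 := by
  have e : ({l ∈ Icc (-(H : ℤ)) H | (p : ℤ) ∣ l - r} : Finset ℤ) =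
      {l ∈ Ioc (-(H : ℤ) - 1) (H : ℤ) | l ≡ r [ZMOD (p : ℤ)]} := by
    ext l
    simp only [mem_filter, mem_Icc, mem_Ioc, Int.modEq_iff_dvd]
    constructor
    · rintro ⟨⟨h1, h2⟩, h3⟩
      exact ⟨⟨by omega, h2⟩, dvd_sub_comm.1 h3⟩
    · rintro ⟨⟨h1, h2⟩, h3⟩
      exact ⟨⟨by omega, h2⟩, dvd_sub_comm.1 h3⟩
  have h := Int.Ioc_filter_modEq_card (-(H : ℤ) - 1) (H : ℤ) (r := (p : ℤ)) (by exact_mod_cast hp) r
  rw [e]
  set S : Finset ℤ := {l ∈ Ioc (-(H : ℤ) - 1) (H : ℤ) | l ≡ r [ZMOD (p : ℤ)]} with hS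
  have hp0 : (0 : ℚ) < p := by exact_mod_cast hp
  have h1 := Int.floor_le (((((H : ℤ) : ℚ)) - r) / ((p : ℤ) : ℚ))
  have h2 := Int.lt_floor_add_one ((((-(H : ℤ) - 1 : ℤ) : ℚ) - r) / ((p : ℤ) : ℚ))
  have key : ((S.card : ℕ) : ℚ) ≤ (2 * H + 1) / p + 1 := by
    have h3 : ((S.card : ℤ) : ℚ) = ((max (⌊((((H : ℤ) : ℚ)) - r) / ((p : ℤ) : ℚ)⌋ -
      ⌊(((-(H : ℤ) - 1 : ℤ) : ℚ) - r) / ((p : ℤ) : ℚ)⌋) 0 : ℤ) : ℚ) := by
      rw [hS]; exact_mod_cast h
    have h4 : ((S.card : ℕ) : ℚ) = ((S.card : ℤ) : ℚ) := by push_cast; rfl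
    rw [h4, h3, Int.cast_max, Int.cast_sub, Int.cast_zero]
    have h5 : (((((H : ℤ) : ℚ)) - r) / ((p : ℤ) : ℚ)) - ((((-(H : ℤ) - 1 : ℤ) : ℚ) - r) / ((p : ℤ) : ℚ)) =
        (2 * H + 1) / p := by
      push_cast
      rw [← sub_div]
      congr 1
      ring
    refine max_le ?_ (by positivity)
    linarith
  have : (((S.card : ℚ)) : ℝ) ≤ (((2 * H + 1) / p + 1 : ℚ) : ℝ) := by exact_mod_cast key
  push_cast at this
  exact this

/-- the zeros of a quadratic modulo `p` in an interval -/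
lemma card_roots (U V W : ℤ) (H p : ℕ) (hp : p.Prime) (hU : ¬ (p : ℤ) ∣ U) :
    (({l ∈ Icc (-(H : ℤ)) H | (p : ℤ) ∣ U * l ^ 2 + V * l + W} : Finset ℤ).card : ℝ) ≤ 2 * ((2 * H + 1) / p + 1) := by
  classical
  have hpi : Prime (p : ℤ) := Nat.prime_iff_prime_int.1 hp
  have hpos : (0 : ℝ) ≤ (2 * H + 1) / p + 1 := by positivity
  by_cases h0 : ∃ l0 : ℤ, (p : ℤ) ∣ U * l0 ^ 2 + V * l0 + W
  · obtain ⟨l0, h0⟩ := h0
    have key : ∀ l : ℤ, (p : ℤ) ∣ U * l ^ 2 + V * l + W → (p : ℤ) ∣ l - l0 ∨ (p : ℤ) ∣ U * (l + l0) + V := by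
      intro l hl
      have : (p : ℤ) ∣ (l - l0) * (U * (l + l0) + V) := by
        have e : (l - l0) * (U * (l + l0) + V) = (U * l ^ 2 + V * l + W) - (U * l0 ^ 2 + V * l0 + W) := by ring
        rw [e]
        exact dvd_sub hl h0
      exact hpi.dvd_or_dvd this
    by_cases h1 : ∃ l1 : ℤ, (p : ℤ) ∣ U * (l1 + l0) + V
    · obtain ⟨l1, h1⟩ := h1
      have hsub : ({l ∈ Icc (-(H : ℤ)) H | (p : ℤ) ∣ U * l ^ 2 + V * l + W} : Finset ℤ) ⊆
          ({l ∈ Icc (-(H : ℤ)) H | (p : ℤ) ∣ l - l0} : Finset ℤ) ∪ ({l ∈ Icc (-(H : ℤ)) H | (p : ℤ) ∣ l - l1} : Finset ℤ) := by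
        intro l hl
        rw [mem_filter] at hl
        rw [mem_union, mem_filter, mem_filter]
        rcases key l hl.2 with h | h
        · exact Or.inl ⟨hl.1, h⟩
        · refine Or.inr ⟨hl.1, ?_⟩
          have h2 : (p : ℤ) ∣ U * (l - l1) := by
            have e : U * (l - l1) = (U * (l + l0) + V) - (U * (l1 + l0) + V) := by ring
            rw [e]
            exact dvd_sub h h1
          exact (hpi.dvd_or_dvd h2).resolve_left hU
      have h3 := (card_le_card hsub).trans (card_union_le _ _)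
      have h4 := card_class H p hp.pos l0
      have h5 := card_class H p hp.pos l1
      have h6 : (({l ∈ Icc (-(H : ℤ)) H | (p : ℤ) ∣ U * l ^ 2 + V * l + W} : Finset ℤ).card : ℝ) ≤
          (({l ∈ Icc (-(H : ℤ)) H | (p : ℤ) ∣ l - l0} : Finset ℤ).card : ℝ) +
          (({l ∈ Icc (-(H : ℤ)) H | (p : ℤ) ∣ l - l1} : Finset ℤ).card : ℝ) := by exact_mod_cast h3
      linarith
    · have hsub : ({l ∈ Icc (-(H : ℤ)) H | (p : ℤ) ∣ U * l ^ 2 + V * l + W} : Finset ℤ) ⊆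
          ({l ∈ Icc (-(H : ℤ)) H | (p : ℤ) ∣ l - l0} : Finset ℤ) := by
        intro l hl
        rw [mem_filter] at hl
        rw [mem_filter]
        rcases key l hl.2 with h | h
        · exact ⟨hl.1, h⟩
        · exact absurd ⟨l, h⟩ h1
      have h3 : (({l ∈ Icc (-(H : ℤ)) H | (p : ℤ) ∣ U * l ^ 2 + V * l + W} : Finset ℤ).card : ℝ) ≤
          (({l ∈ Icc (-(H : ℤ)) H | (p : ℤ) ∣ l - l0} : Finset ℤ).card : ℝ) := by exact_mod_cast card_le_card hsub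
      have h4 := card_class H p hp.pos l0
      linarith
  · have : ({l ∈ Icc (-(H : ℤ)) H | (p : ℤ) ∣ U * l ^ 2 + V * l + W} : Finset ℤ) = ∅ := by
      apply filter_false_of_mem
      intro l _ hl
      exact h0 ⟨l, hl⟩
    rw [this]
    simp only [card_empty, Nat.cast_zero]
    positivity

/-- a number smaller than `H ^ 3` has at most two prime factors larger than `H` -/
lemma card_big (H n : ℕ) (hH : 2 ≤ H) (hn : n ≠ 0) (hlt : n < H ^ 3) :
    (n.primeFactors.filter (fun p => H < p)).card ≤ 2 := by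
  set S := n.primeFactors.filter (fun p => H < p) with hS
  have h1 : H ^ S.card ≤ ∏ p ∈ S, p := by
    rw [← prod_const]
    exact prod_le_prod' fun p hp => (mem_filter.1 hp).2.le
  have h2 : ∏ p ∈ S, p ≤ n := by
    have h3 : ∏ p ∈ S, p ∣ n :=
      (prod_dvd_prod_of_subset _ _ _ (filter_subset _ _)).trans (Nat.prod_primeFactors_dvd n)
    exact Nat.le_of_dvd (Nat.pos_of_ne_zero hn) h3
  have h4 : H ^ S.card < H ^ 3 := lt_of_le_of_lt (h1.trans h2) hlt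
  have h5 := (Nat.pow_lt_pow_iff_right (by omega : 1 < H)).1 h4
  omega

/-- the mean value of the sums of the reciprocals of the large prime factors of the values of a quadratic -/
theorem sum_sg (U V W : ℤ) (K z H : ℕ) (hz : 1 ≤ z) (hU : U ≠ 0) (hUz : U.natAbs ≤ z) (hKH : K < H) (hH : 2 ≤ H)
    (hb : ∀ l ∈ Icc (-(H : ℤ)) H, (U * l ^ 2 + V * l + W).natAbs ≤ K * H ^ 2) :
    ∑ l ∈ (Icc (-(H : ℤ)) H).filter (fun l => U * l ^ 2 + V * l + W ≠ 0), sg z (U * l ^ 2 + V * l + W).natAbs ≤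
      8 * H / z + 6 := by
  classical
  set D : ℤ → ℤ := fun l => U * l ^ 2 + V * l + W with hD
  have hH0 : (0 : ℝ) < H := by exact_mod_cast (by omega : 0 < H)
  have hz0 : (0 : ℝ) < z := by exact_mod_cast hz
  set P : Finset ℕ := (Ioc z H).filter Nat.Prime with hP
  have h1 : ∀ l ∈ (Icc (-(H : ℤ)) H).filter (fun l => D l ≠ 0), sg z (D l).natAbs ≤
      ∑ p ∈ P, (if (p : ℤ) ∣ D l then 1 / (p : ℝ) else 0) + 2 / H := by
    intro l hl
    rw [mem_filter] at hl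
    have hn : (D l).natAbs ≠ 0 := Int.natAbs_ne_zero.2 hl.2
    have hlt : (D l).natAbs < H ^ 3 := by
      refine lt_of_le_of_lt (hb l hl.1) ?_
      have : 0 < H ^ 2 := by positivity
      calc K * H ^ 2 < H * H ^ 2 := by exact Nat.mul_lt_mul_of_pos_right hKH this
        _ = H ^ 3 := by ring
    have hc := card_big H _ hH hn hlt
    unfold sg LP
    have hsub : (D l).natAbs.primeFactors.filter (fun p => z < p) ⊆
        P.filter (fun p => (p : ℤ) ∣ D l) ∪ (D l).natAbs.primeFactors.filter (fun p => H < p) := by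
      intro p hp
      rw [mem_filter] at hp
      rw [mem_union, mem_filter, mem_filter, mem_filter, mem_Ioc]
      by_cases h : H < p
      · exact Or.inr ⟨hp.1, h⟩
      · refine Or.inl ⟨⟨⟨hp.2, by omega⟩, Nat.prime_of_mem_primeFactors hp.1⟩, ?_⟩
        exact Int.natCast_dvd.2 (Nat.dvd_of_mem_primeFactors hp.1)
    refine (sum_le_sum_of_subset_of_nonneg hsub fun p _ _ => by positivity).trans ?_
    have hui := sum_union_inter (s₁ := P.filter (fun p : ℕ => (p : ℤ) ∣ D l))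
      (s₂ := (D l).natAbs.primeFactors.filter (fun p : ℕ => H < p)) (f := fun p : ℕ => 1 / (p : ℝ))
    have hin : 0 ≤ ∑ p ∈ P.filter (fun p : ℕ => (p : ℤ) ∣ D l) ∩
      (D l).natAbs.primeFactors.filter (fun p : ℕ => H < p), 1 / (p : ℝ) := sum_nonneg fun _ _ => by positivity
    rw [← sum_filter]
    refine le_trans (b := ∑ p ∈ P.filter (fun p : ℕ => (p : ℤ) ∣ D l), 1 / (p : ℝ) +
      ∑ p ∈ (D l).natAbs.primeFactors.filter (fun p : ℕ => H < p), 1 / (p : ℝ)) (by linarith) ?_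
    refine add_le_add le_rfl ?_
    calc ∑ p ∈ (D l).natAbs.primeFactors.filter (fun p => H < p), 1 / (p : ℝ)
        ≤ ∑ p ∈ (D l).natAbs.primeFactors.filter (fun p => H < p), 1 / (H : ℝ) := by
          refine sum_le_sum fun p hp => ?_
          have : (H : ℝ) ≤ p := by exact_mod_cast (mem_filter.1 hp).2.le
          exact one_div_le_one_div_of_le hH0 this
      _ = ((D l).natAbs.primeFactors.filter (fun p => H < p)).card * (1 / (H : ℝ)) := by
          rw [sum_const, nsmul_eq_mul]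
      _ ≤ 2 * (1 / (H : ℝ)) := by
          have : (((D l).natAbs.primeFactors.filter (fun p => H < p)).card : ℝ) ≤ 2 := by exact_mod_cast hc
          exact mul_le_mul_of_nonneg_right this (by positivity)
      _ = 2 / H := by ring
  have hcard : (((Icc (-(H : ℤ)) H).card : ℕ) : ℝ) = 2 * H + 1 := by
    rw [Int.card_Icc]
    have : ((H : ℤ) + 1 - -(H : ℤ)).toNat = 2 * H + 1 := by omega
    rw [this]; push_cast; ring
  have h2 : ∑ l ∈ (Icc (-(H : ℤ)) H).filter (fun l => D l ≠ 0), sg z (D l).natAbs ≤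
      ∑ l ∈ Icc (-(H : ℤ)) H, (∑ p ∈ P, (if (p : ℤ) ∣ D l then 1 / (p : ℝ) else 0) + 2 / H) := by
    refine (sum_le_sum h1).trans ?_
    refine sum_le_sum_of_subset_of_nonneg (filter_subset _ _) fun l _ _ => ?_
    refine add_nonneg (sum_nonneg fun p _ => ?_) (by positivity)
    split_ifs <;> positivity
  refine h2.trans ?_
  rw [sum_add_distrib, sum_const, nsmul_eq_mul, hcard, sum_comm]
  have h3 : ∀ p ∈ P, ∑ l ∈ Icc (-(H : ℤ)) H, (if (p : ℤ) ∣ D l then 1 / (p : ℝ) else 0) ≤ 8 * H * ((p : ℝ) ^ 2)⁻¹ := by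
    intro p hp
    rw [hP, mem_filter, mem_Ioc] at hp
    obtain ⟨⟨hp1, hp2⟩, hp3⟩ := hp
    have hp0 : (0 : ℝ) < p := by exact_mod_cast hp3.pos
    have hpU : ¬ (p : ℤ) ∣ U := by
      intro h
      have := Nat.le_of_dvd (Int.natAbs_pos.2 hU) (Int.natCast_dvd.1 h)
      omega
    rw [← sum_filter, sum_const, nsmul_eq_mul]
    have h4 := card_roots U V W H p hp3 hpU
    have h5 : (p : ℝ) ≤ H := by exact_mod_cast hp2
    have h6 : (2 * ((2 * (H : ℝ) + 1) / p + 1)) ≤ 8 * H / p := by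
      rw [div_add_one hp0.ne', ← mul_div_assoc]
      have : (1 : ℝ) ≤ H := by exact_mod_cast (by omega : 1 ≤ H)
      apply div_le_div_of_nonneg_right _ hp0.le
      linarith
    calc ((filter (fun l => (p : ℤ) ∣ D l) (Icc (-(H : ℤ)) H)).card : ℝ) * (1 / (p : ℝ))
        ≤ (8 * H / p) * (1 / (p : ℝ)) := mul_le_mul_of_nonneg_right (h4.trans h6) (by positivity)
      _ = 8 * H * ((p : ℝ) ^ 2)⁻¹ := by field_simp
  have h7 : ∑ p ∈ P, ∑ l ∈ Icc (-(H : ℤ)) H, (if (p : ℤ) ∣ D l then 1 / (p : ℝ) else 0) ≤ 8 * H / z := by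
    refine (sum_le_sum h3).trans ?_
    rw [← mul_sum]
    have h8 : ∑ p ∈ P, ((p : ℝ) ^ 2)⁻¹ ≤ (z : ℝ)⁻¹ := by
      refine (sum_le_sum_of_subset_of_nonneg (filter_subset _ _) fun p _ _ => by positivity).trans ?_
      by_cases hzH : z ≤ H
      · have := sum_Ioc_inv_sq_le_sub (α := ℝ) (k := z) (n := H) (by omega) hzH
        have h9 : (0 : ℝ) ≤ (H : ℝ)⁻¹ := by positivity
        linarith
      · rw [Ioc_eq_empty (by omega), sum_empty]
        positivity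
    calc 8 * (H : ℝ) * ∑ p ∈ P, ((p : ℝ) ^ 2)⁻¹ ≤ 8 * H * (z : ℝ)⁻¹ := mul_le_mul_of_nonneg_left h8 (by positivity)
      _ = 8 * H / z := by ring
  have h10 : (2 * (H : ℝ) + 1) * (2 / H) ≤ 6 := by
    have : (1 : ℝ) ≤ H := by exact_mod_cast (by omega : 1 ≤ H)
    rw [mul_div_assoc', div_le_iff₀ hH0]
    linarith
  linarith

/-- the zeros -/
lemma card_zero (U V W : ℤ) (H : ℕ) (hU : U ≠ 0) :
    (({l ∈ Icc (-(H : ℤ)) H | U * l ^ 2 + V * l + W = 0} : Finset ℤ).card : ℝ) ≤ 4 := by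
  obtain ⟨p, hp1, hp⟩ := Nat.exists_infinite_primes (U.natAbs + 2 * H + 1)
  have hpU : ¬ (p : ℤ) ∣ U := by
    intro h
    have := Nat.le_of_dvd (Int.natAbs_pos.2 hU) (Int.natCast_dvd.1 h)
    omega
  have h1 := card_roots U V W H p hp hpU
  have hp0 : (0 : ℝ) < p := by exact_mod_cast hp.pos
  have h2 : (2 * (H : ℝ) + 1) / p ≤ 1 := by
    rw [div_le_one hp0]
    exact_mod_cast (by omega : 2 * H + 1 ≤ p)
  have h3 : (({l ∈ Icc (-(H : ℤ)) H | U * l ^ 2 + V * l + W = 0} : Finset ℤ).card : ℝ) ≤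
      (({l ∈ Icc (-(H : ℤ)) H | (p : ℤ) ∣ U * l ^ 2 + V * l + W} : Finset ℤ).card : ℝ) := by
    have : ({l ∈ Icc (-(H : ℤ)) H | U * l ^ 2 + V * l + W = 0} : Finset ℤ) ⊆
        {l ∈ Icc (-(H : ℤ)) H | (p : ℤ) ∣ U * l ^ 2 + V * l + W} := by
      intro l hl
      rw [mem_filter] at hl ⊢
      exact ⟨hl.1, by rw [hl.2]; exact dvd_zero _⟩
    exact_mod_cast card_le_card this
  linarith

lemma nn_lead (g g' : Fin 3 → ℤ) : nn g g' = 16 * (cB g g' ^ 2 - cA g g' * cC g g') := by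
  unfold nn cV dsc cA cB cC
  ring

lemma nn_quad (g g' h : Fin 3 → ℤ) (l : ℤ) : nn g (fun i => h i + l * g' i) =
    nn g g' * l ^ 2 + (2 * cV g h * cV g g' - 4 * dsc g * cV g' h) * l + nn g h := by
  unfold nn cV dsc
  ring

/-- a bound for the values -/
lemma bound (g g' : Fin 3 → ℤ) (C : ℝ) : ∃ K : ℕ, ∀ H : ℕ, ∀ h : Fin 3 → ℤ, (∀ i, |(h i : ℝ)| ≤ C * H) →
    ∀ l ∈ Icc (-(H : ℤ)) H, (nn g (fun i => h i + l * g' i)).natAbs ≤ K * H ^ 2 := by
  set G : ℝ := |(g 0 : ℝ)| + |(g 1 : ℝ)| + |(g 2 : ℝ)| with hG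
  set M : ℝ := |C| + (|(g' 0 : ℝ)| + |(g' 1 : ℝ)| + |(g' 2 : ℝ)|) with hM
  refine ⟨⌈200 * G ^ 2 * M ^ 2⌉₊, fun H h hh l hl => ?_⟩
  have hG0 : 0 ≤ G := by positivity
  have hM0 : 0 ≤ M := by positivity
  have hg : ∀ i, |(g i : ℝ)| ≤ G := by
    have a0 := abs_nonneg (g 0 : ℝ)
    have a1 := abs_nonneg (g 1 : ℝ)
    have a2 := abs_nonneg (g 2 : ℝ)
    intro i
    fin_cases i
    · show |(g 0 : ℝ)| ≤ G
      linarith
    · show |(g 1 : ℝ)| ≤ G
      linarith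
    · show |(g 2 : ℝ)| ≤ G
      linarith
  have hg' : ∀ i, |(g' i : ℝ)| ≤ M - |C| := by
    have a0 := abs_nonneg (g' 0 : ℝ)
    have a1 := abs_nonneg (g' 1 : ℝ)
    have a2 := abs_nonneg (g' 2 : ℝ)
    intro i
    fin_cases i
    · show |(g' 0 : ℝ)| ≤ M - |C|
      linarith
    · show |(g' 1 : ℝ)| ≤ M - |C|
      linarith
    · show |(g' 2 : ℝ)| ≤ M - |C|
      linarith
  have hl1 : |(l : ℝ)| ≤ H := by
    rw [mem_Icc] at hl
    rw [abs_le]
    exact ⟨by exact_mod_cast hl.1, by exact_mod_cast hl.2⟩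
  have hHn : (0 : ℝ) ≤ H := Nat.cast_nonneg H
  set u : Fin 3 → ℝ := fun i => (h i : ℝ) + l * g' i with hu
  have hub : ∀ i, |u i| ≤ M * H := by
    intro i
    have h1 : |u i| ≤ |(h i : ℝ)| + |(l : ℝ)| * |(g' i : ℝ)| := by
      rw [hu, ← abs_mul]
      exact abs_add_le _ _
    have h2 : |(l : ℝ)| * |(g' i : ℝ)| ≤ H * (M - |C|) :=
      mul_le_mul hl1 (hg' i) (abs_nonneg _) hHn
    have h3 : C * H ≤ |C| * H := mul_le_mul_of_nonneg_right (le_abs_self C) hHn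
    have := hh i
    nlinarith
  have hMH : 0 ≤ M * H := by positivity
  have hcast : ((nn g (fun i => h i + l * g' i) : ℤ) : ℝ) =
      (2 * ((g 1 : ℝ) * u 1) - 4 * ((g 2 : ℝ) * u 0 + (g 0 : ℝ) * u 2)) ^ 2 -
        4 * ((g 1 : ℝ) ^ 2 - 4 * (g 2 : ℝ) * (g 0 : ℝ)) * (u 1 ^ 2 - 4 * u 2 * u 0) := by
    unfold nn cV dsc
    simp only [hu]
    push_cast
    ring
  have hm : ∀ i j, |(g i : ℝ) * u j| ≤ G * (M * H) := by
    intro i j
    rw [abs_mul]
    exact mul_le_mul (hg i) (hub j) (abs_nonneg _) hG0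
  have hmm : ∀ i j, |u i * u j| ≤ (M * H) * (M * H) := by
    intro i j
    rw [abs_mul]
    exact mul_le_mul (hub i) (hub j) (abs_nonneg _) hMH
  have hgg : ∀ i j, |(g i : ℝ) * g j| ≤ G * G := by
    intro i j
    rw [abs_mul]
    exact mul_le_mul (hg i) (hg j) (abs_nonneg _) hG0
  have hA : |2 * ((g 1 : ℝ) * u 1) - 4 * ((g 2 : ℝ) * u 0 + (g 0 : ℝ) * u 2)| ≤ 10 * (G * (M * H)) := by
    have b1 := abs_le.1 (hm 1 1)
    have b2 := abs_le.1 (hm 2 0)
    have b3 := abs_le.1 (hm 0 2)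
    rw [abs_le]
    constructor <;> linarith [b1.1, b1.2, b2.1, b2.2, b3.1, b3.2]
  have hB : |(g 1 : ℝ) ^ 2 - 4 * (g 2 : ℝ) * (g 0 : ℝ)| ≤ 5 * (G * G) := by
    have b1 := abs_le.1 (hgg 1 1)
    have b2 := abs_le.1 (hgg 2 0)
    rw [abs_le]
    constructor <;> nlinarith [b1.1, b1.2, b2.1, b2.2]
  have hC : |u 1 ^ 2 - 4 * u 2 * u 0| ≤ 5 * ((M * H) * (M * H)) := by
    have b1 := abs_le.1 (hmm 1 1)
    have b2 := abs_le.1 (hmm 2 0)
    rw [abs_le]
    constructor <;> nlinarith [b1.1, b1.2, b2.1, b2.2]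
  have hfin : |((nn g (fun i => h i + l * g' i) : ℤ) : ℝ)| ≤ 200 * G ^ 2 * M ^ 2 * (H : ℝ) ^ 2 := by
    rw [hcast]
    refine (abs_sub _ _).trans ?_
    rw [abs_pow, abs_mul, abs_mul, abs_of_pos (by norm_num : (0 : ℝ) < 4)]
    have c1 : |2 * ((g 1 : ℝ) * u 1) - 4 * ((g 2 : ℝ) * u 0 + (g 0 : ℝ) * u 2)| ^ 2 ≤ (10 * (G * (M * H))) ^ 2 :=
      pow_le_pow_left₀ (abs_nonneg _) hA 2
    have c2 : 4 * |(g 1 : ℝ) ^ 2 - 4 * (g 2 : ℝ) * (g 0 : ℝ)| * |u 1 ^ 2 - 4 * u 2 * u 0| ≤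
        4 * (5 * (G * G)) * (5 * ((M * H) * (M * H))) :=
      mul_le_mul (by linarith) hC (abs_nonneg _) (by positivity)
    calc _ ≤ (10 * (G * (M * H))) ^ 2 + 4 * (5 * (G * G)) * (5 * ((M * H) * (M * H))) := add_le_add c1 c2
      _ = 200 * G ^ 2 * M ^ 2 * (H : ℝ) ^ 2 := by ring
  have h1 : (((nn g (fun i => h i + l * g' i)).natAbs : ℕ) : ℝ) = |((nn g (fun i => h i + l * g' i) : ℤ) : ℝ)| := by
    rw [Nat.cast_natAbs, Int.cast_abs]
  have h2 : (((nn g (fun i => h i + l * g' i)).natAbs : ℕ) : ℝ) ≤ ((⌈200 * G ^ 2 * M ^ 2⌉₊ * H ^ 2 : ℕ) : ℝ) := by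
    rw [h1]
    push_cast
    exact hfin.trans (mul_le_mul_of_nonneg_right (Nat.le_ceil _) (by positivity))
  exact_mod_cast h2

end NlL

open NlL in
theorem nl : S_NL := by
  classical
  intro g g' hN C ε hε
  have hU : nn g g' ≠ 0 := by
    rw [nn_lead]
    exact mul_ne_zero (by norm_num) (sub_ne_zero.2 hN)
  obtain ⟨K, hK⟩ := bound g g' C
  refine ⟨(nn g g').natAbs + ⌈8 / ε ^ 2⌉₊ + 1, fun z hz => ⟨K + 2 + ⌈(4 + 6 / ε) / ε⌉₊, fun H hH h hh => ?_⟩⟩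
  set V : ℤ := 2 * cV g h * cV g g' - 4 * dsc g * cV g' h with hV
  set W : ℤ := nn g h with hW
  set U : ℤ := nn g g' with hUd
  have hq : ∀ l : ℤ, nn g (fun i => h i + l * g' i) = U * l ^ 2 + V * l + W := fun l => nn_quad g g' h l
  have hb : ∀ l ∈ Icc (-(H : ℤ)) H, (U * l ^ 2 + V * l + W).natAbs ≤ K * H ^ 2 := by
    intro l hl
    rw [← hq]
    exact hK H h hh l hl
  have hz0 : (0 : ℝ) < z := by exact_mod_cast (by omega : 0 < z)
  have hH0 : (0 : ℝ) < H := by exact_mod_cast (by omega : 0 < H)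
  have hs := sum_sg U V W K z H (by omega) hU (by omega) (by omega) (by omega) hb
  have hz1 := card_zero U V W H hU
  set B : Finset ℤ := (Icc (-(H : ℤ)) H).filter (fun l => U * l ^ 2 + V * l + W ≠ 0) with hB
  set S : Finset ℤ := B.filter (fun l => ε < sg z (U * l ^ 2 + V * l + W).natAbs) with hS
  have hmk : ε * S.card ≤ 8 * H / z + 6 := by
    refine le_trans ?_ hs
    calc ε * (S.card : ℝ) = ∑ l ∈ S, ε := by rw [sum_const, nsmul_eq_mul]; ring
      _ ≤ ∑ l ∈ S, sg z (U * l ^ 2 + V * l + W).natAbs := sum_le_sum fun l hl => (mem_filter.1 hl).2.le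
      _ ≤ ∑ l ∈ B, sg z (U * l ^ 2 + V * l + W).natAbs :=
          sum_le_sum_of_subset_of_nonneg (filter_subset _ _) fun l _ _ => by
            unfold sg
            exact sum_nonneg fun _ _ => by positivity
  have hsub : ∀ T : Finset ℤ, (∀ l ∈ T, l ∈ Icc (-(H : ℤ)) H ∧ (nn g (fun i => h i + l * g' i) = 0 ∨
      ε < sg z (nn g (fun i => h i + l * g' i)).natAbs)) → (T.card : ℝ) ≤ 4 + S.card := by
    intro T hT
    have h1 : T ⊆ ({l ∈ Icc (-(H : ℤ)) H | U * l ^ 2 + V * l + W = 0} : Finset ℤ) ∪ S := by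
      intro l hl
      obtain ⟨h1, h2⟩ := hT l hl
      rw [hq] at h2
      rw [mem_union, mem_filter, hS, mem_filter, hB, mem_filter]
      by_cases h3 : U * l ^ 2 + V * l + W = 0
      · exact Or.inl ⟨h1, h3⟩
      · exact Or.inr ⟨⟨h1, h3⟩, h2.resolve_left h3⟩
    have h2 := (card_le_card h1).trans (card_union_le _ _)
    have h3 : (T.card : ℝ) ≤ (({l ∈ Icc (-(H : ℤ)) H | U * l ^ 2 + V * l + W = 0} : Finset ℤ).card : ℝ) + S.card := by
      exact_mod_cast h2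
    linarith
  refine (hsub _ fun l hl => ?_).trans ?_
  · rw [mem_filter] at hl
    exact hl
  · have e1 : 8 / ε ^ 2 ≤ z := (Nat.le_ceil _).trans (by exact_mod_cast (by omega : ⌈8 / ε ^ 2⌉₊ ≤ z))
    have e2 : (4 + 6 / ε) / ε ≤ H := (Nat.le_ceil _).trans (by exact_mod_cast (by omega : ⌈(4 + 6 / ε) / ε⌉₊ ≤ H))
    have e3 : 8 * (H : ℝ) / z ≤ ε ^ 2 * H := by
      rw [div_le_iff₀ hz0]
      rw [div_le_iff₀ (by positivity)] at e1
      nlinarith
    have e4 : 4 + 6 / ε ≤ H * ε := by rwa [div_le_iff₀ hε] at e2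
    have e5 : 4 * ε + 6 ≤ H * ε * ε := by
      have := mul_le_mul_of_nonneg_right e4 hε.le
      rwa [add_mul, div_mul_cancel₀ _ hε.ne'] at this
    have e6 : ε * (4 + (S.card : ℝ)) ≤ ε * (ε * (2 * H + 1)) := by nlinarith
    exact le_of_mul_le_mul_left e6 hε

end Pool.Agent.Helper83K9.PT
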